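import Mathlib
import Pool.Agent.Q7.LO.Asm
import Pool.Agent.Q7.LO.Alt
import Pool.Agent.Q7.LO.Altg
import Pool.Agent.Q7.LO.Aw
import Pool.Agent.Q7.LO.Cell
import Pool.Agent.Q7.LO.Dual
import Pool.Agent.Q7.LO.Farey
import Pool.Agent.Q7.LO.Gen
import Pool.Agent.Q7.LO.Id
import Pool.Agent.Q7.LO.Low
import Pool.Agent.Q7.LO.Rec
import Pool.Agent.Q7.LO.Rotg
import Pool.Agent.Q7.LO.Split
import Pool.Agent.Q7.LO.Trig
import Pool.Agent.Q7.LO.X
import Pool.Agent.Q7.LO.Zero
import Pool.Agent.Q251.LO.Hyp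

/-!
# All orderings of the eigenvalue sequence of a real Leonard system
-/

set_option autoImplicit false

universe u

namespace Pool.Agent.Results.MP_74fd1e_al.AllOrderings

open Q7.Leonard Q7.LO

/-- Let `V` be a real vector space of dimension `d + 1`. A permutation `σ` of `{0, …, d}` is the
permutation `σ_Φ` of some Leonard system `Φ` on `V` if and only if `σ` is `Rotational` or
`Alternating`. Moreover the rotational permutations are exactly the orders of the sequences
`cos (ω j + φ)`, `0 ≤ j ≤ d`, with real `ω` and `φ`. -/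
theorem result {V : Type u} [AddCommGroup V] [Module ℝ V] (d : ℕ)
    (hV : Module.finrank ℝ V = d + 1) (σ : Equiv.Perm (Fin (d + 1))) :
    ((∃ (A As : Module.End ℝ V) (θ θs : Fin (d + 1) → ℝ),
        IsLeonardSystem A As θ θs ∧ StrictAnti fun i => θ (σ i)) ↔
      Rotational σ ∨ Alternating σ) ∧
    (Rotational σ ↔ ∃ ω φ : ℝ, StrictAnti fun i : Fin (d + 1) =>
      Real.cos (ω * ((σ i : Fin (d + 1)) : ℕ) + φ)) := by
  refine ⟨⟨?_, ?_⟩, ?_, ?_⟩
  · rintro ⟨A, As, θ, θs, h, hσ⟩
    exact order_of_leonard tRec tTrig Q251.LO.tHyp tAlt tGen tFarey tCell tDist hV σ h hσ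
  · rintro (h | h)
    · exact leonard_of_good tX tId tSplit tMf tAw tZero tUp tLow tDual hV σ (tRotg d σ h)
    · exact leonard_of_good tX tId tSplit tMf tAw tZero tUp tLow tDual hV σ (tAltg d σ h)
  · rintro ⟨n, m, l, hn1, hn2, hmn, hco, hl, hodd, hmono⟩
    have hn : 0 < n := by omega
    have hn' : (0 : ℝ) < n := by exact_mod_cast hn
    refine ⟨2 * Real.pi * m / n, Real.pi * l / (2 * n), fun i j hij => ?_⟩
    have h1 := hmono hij
    simp only at h1 ⊢
    rw [← cos_order_iff hn] at h1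
    have e : ∀ s : ℕ, 2 * Real.pi * m / n * s + Real.pi * l / (2 * n) =
        Real.pi * ((4 * m * s + l : ℕ) : ℝ) / (2 * n) := by
      intro s
      push_cast
      field_simp
      ring
    rw [e, e]
    exact h1
  · intro h
    exact rotational_of_realRot tGen tFarey tCell tDist h

end Pool.Agent.Results.MP_74fd1e_al.AllOrderings
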